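import Pool.Agent.H750R2.PLap.TopPart

set_option autoImplicit false

/-!
# Polynomial solutions of the p-Laplace equation in three variables

For every real `p > 1` with `p ≠ 2`, every real polynomial in three variables (homogeneous or not)
which satisfies the expanded `p`-Laplace identity
`|∇u|² Δu + (p - 2) ∑ uᵢ uⱼ uᵢⱼ = 0` at every point of `ℝ³` has degree at most one.
In particular no nonzero homogeneous polynomial of degree `m ≥ 2` is a solution: this is the case
`n = 3` of the question, for all `p` and all `m`.
-/

namespace Pool.Agent.Results.MP_d74254_an.DimensionThree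

open MvPolynomial

theorem eval_Lg (s₂ : ℝ) (u : MvPolynomial (Fin 3) ℝ) (x : Fin 3 → ℝ) :
    eval x (Pool.Agent.H750R2.PLap.Lg s₂ u) =
      (∑ i, (eval x (pderiv i u)) ^ 2) * (∑ i, eval x (pderiv i (pderiv i u))) +
        s₂ * ∑ i, ∑ j, eval x (pderiv i u) * eval x (pderiv j u) *
          eval x (pderiv i (pderiv j u)) := by
  unfold Pool.Agent.H750R2.PLap.Lg
  simp only [map_add, map_mul, map_sum, map_pow, eval_C]

/-- Every polynomial solution of the `p`-Laplace equation on `ℝ³`, `1 < p`, `p ≠ 2`, has degree
at most one. -/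
theorem result :
    ∀ (p : ℝ), 1 < p → p ≠ 2 → ∀ u : MvPolynomial (Fin 3) ℝ,
      (∀ x : Fin 3 → ℝ,
          (∑ i, (MvPolynomial.eval x (MvPolynomial.pderiv i u)) ^ 2) *
              (∑ i, MvPolynomial.eval x (MvPolynomial.pderiv i (MvPolynomial.pderiv i u))) +
            (p - 2) * ∑ i, ∑ j,
              MvPolynomial.eval x (MvPolynomial.pderiv i u) *
                MvPolynomial.eval x (MvPolynomial.pderiv j u) *
                MvPolynomial.eval x (MvPolynomial.pderiv i (MvPolynomial.pderiv j u)) = 0) →
      u.totalDegree ≤ 1 := by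
  intro p hp hp2 u h
  by_contra hcon
  obtain ⟨k, hk⟩ : ∃ k, u.totalDegree = k + 2 := ⟨u.totalDegree - 2, by omega⟩
  have hL : Pool.Agent.H750R2.PLap.Lg (p - 2) u = 0 := by
    apply MvPolynomial.funext
    intro x
    rw [eval_Lg, map_zero]
    exact h x
  have hu0 : homogeneousComponent (k + 2) u ≠ 0 := by
    intro h0
    have hne : u.support.Nonempty := by
      rw [support_nonempty]
      intro hz
      rw [hz, totalDegree_zero] at hk
      omega
    obtain ⟨e, he, hemax⟩ := Finset.exists_mem_eq_sup u.support hne
      (fun s => s.sum fun _ e => e)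
    have hd : Finsupp.degree e = k + 2 := by
      rw [← hk]
      exact hemax.symm
    have := congrArg (coeff e) h0
    rw [coeff_homogeneousComponent, if_pos hd, coeff_zero] at this
    exact (mem_support_iff.mp he) this
  exact Pool.Agent.H750R2.PLap.real_case p hp hp2 (k + 2) (by omega) _ hu0
    (homogeneousComponent_isHomogeneous _ _)
    (Pool.Agent.H750R2.PLap.top_part (p - 2) k u hk.le hL)

end Pool.Agent.Results.MP_d74254_an.DimensionThree
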