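import Pool.Agent.H476R2.PL.Top

set_option autoImplicit false

/-!
# Polynomial solutions of the p-Laplace equation, `p ≥ n`

For every dimension `n ≥ 3` and every real exponent `p ≥ n`, every real polynomial in `n`
variables (homogeneous or not) which satisfies the expanded `p`-Laplace identity
`|∇u|² Δu + (p - 2) ∑ uᵢ uⱼ uᵢⱼ = 0` at every point of `ℝⁿ` has degree at most one.

Proof: the top homogeneous part is again a solution. For a homogeneous solution of degree
`m ≥ 2` take a point `x` of the unit sphere at which `|u|` is maximal. The equation at `x` and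
Bernstein's inequality (for the second derivative at a maximum point) on the great circles through
`x` give `p ≤ n`, and for `p = n` the extremal case of Bernstein's inequality on all great
circles through `x`, hence `u = -u(x)` at all points at distance `π / m` from `x`; an equilateral
spherical triangle of side `π / m` gives a contradiction.
-/

namespace Pool.Agent.Results.MP_d74254_an.LargeExponent

open MvPolynomial

/-- Every polynomial solution of the `p`-Laplace equation on `ℝⁿ`, `p ≥ n ≥ 3`, has degree
at most one. -/
theorem result :
    ∀ (n : ℕ), 3 ≤ n → ∀ (p : ℝ), (n : ℝ) ≤ p → ∀ u : MvPolynomial (Fin n) ℝ,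
      (∀ x : Fin n → ℝ,
          (∑ i, (MvPolynomial.eval x (MvPolynomial.pderiv i u)) ^ 2) *
              (∑ i, MvPolynomial.eval x (MvPolynomial.pderiv i (MvPolynomial.pderiv i u))) +
            (p - 2) * ∑ i, ∑ j,
              MvPolynomial.eval x (MvPolynomial.pderiv i u) *
                MvPolynomial.eval x (MvPolynomial.pderiv j u) *
                MvPolynomial.eval x (MvPolynomial.pderiv i (MvPolynomial.pderiv j u)) = 0) →
      u.totalDegree ≤ 1 := by
  intro n hn p hp u h
  by_contra hcon
  obtain ⟨k, hk⟩ : ∃ k, u.totalDegree = k + 2 := ⟨u.totalDegree - 2, by omega⟩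
  have hL : Pool.Agent.H476R2.PL.Lg (p - 2) u = 0 := by
    apply MvPolynomial.funext
    intro x
    rw [Pool.Agent.H476R2.PL.eval_Lg, map_zero]
    exact h x
  have hu0 : homogeneousComponent (k + 2) u ≠ 0 := by
    intro h0
    have hne : u.support.Nonempty := by
      rw [support_nonempty]
      intro hz
      rw [hz, totalDegree_zero] at hk
      omega
    obtain ⟨e, he, hemax⟩ := Finset.exists_mem_eq_sup u.support hne
      (fun s => s.sum fun _ e => e)
    have hd : Finsupp.degree e = k + 2 := by
      rw [← hk]
      exact hemax.symm
    have := congrArg (coeff e) h0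
    rw [coeff_homogeneousComponent, if_pos hd, coeff_zero] at this
    exact (mem_support_iff.mp he) this
  apply hu0
  apply Pool.Agent.H476R2.PL.homog hn (m := k + 2) (by omega)
    (homogeneousComponent_isHomogeneous _ _) hp
  intro y
  rw [← Pool.Agent.H476R2.PL.eval_Lg,
    Pool.Agent.H476R2.PL.top_part (p - 2) k u hk.le hL, map_zero]

end Pool.Agent.Results.MP_d74254_an.LargeExponent
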